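import Pool.Agent.Helper1_RL.Stmts

/-!
# Module SEL (MP_62da59_gt, squad RLA): the points and the fat carpet
-/

noncomputable section

open scoped ContDiff Topology ENNReal RealInnerProductSpace
set_option maxSynthPendingDepth 3
open Set Metric

namespace Pool.Agent.RLim.H10

open Pool.Agent.RLim MeasureTheory

/-- the square -/
def Qs : Set (ℝ × ℝ) := Icc (-1 : ℝ) 1 ×ˢ Icc (-1 : ℝ) 1

/-- the radii -/
def ss (k : ℕ) : ℝ := 1 / 2 ^ (k + 3)

theorem ss_pos (k : ℕ) : 0 < ss k := by unfold ss; positivity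

theorem ss_anti {k l : ℕ} (h : k ≤ l) : ss l ≤ ss k := by
  unfold ss
  exact one_div_le_one_div_of_le (by positivity) (pow_le_pow_right₀ (by norm_num) (by omega))

/-- what remains of the square -/
def KK (f : ℕ → ℝ × ℝ) : Set (ℝ × ℝ) := Qs \ ⋃ l, ball (f l) (4 * ss l)

/-- what remains of the square after `k` steps -/
def AA (k : ℕ) (f : ℕ → ℝ × ℝ) : Set (ℝ × ℝ) := Qs ∩ {p | ∀ l < k, 4 * ss l ≤ dist p (f l)}

theorem vol_ball (x : ℝ × ℝ) (r : ℝ) (hr : 0 < r) :
    volume (ball x r) = ENNReal.ofReal ((2 * r) ^ 2) := by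
  rw [← Prod.mk.eta (p := x), ← ball_prod_same, Measure.volume_eq_prod, Measure.prod_prod,
    Real.volume_ball, Real.volume_ball, ← ENNReal.ofReal_mul (by positivity), pow_two]

theorem vol_Qs : volume Qs = ENNReal.ofReal 4 := by
  unfold Qs
  rw [Measure.volume_eq_prod, Measure.prod_prod, Real.volume_Icc,
    ← ENNReal.ofReal_mul (by norm_num)]
  norm_num

theorem sum_ss : HasSum (fun l : ℕ => (2 * (4 * ss l)) ^ 2) (4 / 3) := by
  have h := hasSum_geometric_of_lt_one (r := (1 / 4 : ℝ)) (by norm_num) (by norm_num)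
  have h2 : (1 - 1 / 4 : ℝ)⁻¹ = 4 / 3 := by norm_num
  rw [h2] at h
  refine h.congr_fun ?_ 
  intro l
  unfold ss
  have : (4 : ℝ) ^ l = (2 ^ l) ^ 2 := by
    rw [← pow_mul, mul_comm, pow_mul]; norm_num
  rw [one_div_pow, this, pow_add]
  field_simp
  norm_num

theorem vol_KK (f : ℕ → ℝ × ℝ) : 0 < volume (KK f) := by
  rw [pos_iff_ne_zero]
  intro h0
  have h1 : volume Qs ≤ volume (KK f) + volume (⋃ l, ball (f l) (4 * ss l)) := by
    refine (measure_mono ?_).trans (measure_union_le _ _)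
    intro p hp
    by_cases h : p ∈ ⋃ l, ball (f l) (4 * ss l)
    · exact Or.inr h
    · exact Or.inl ⟨hp, h⟩
  have h2 : volume (⋃ l, ball (f l) (4 * ss l)) ≤ ENNReal.ofReal (4 / 3) := by
    refine (measure_iUnion_le _).trans ?_
    rw [← sum_ss.tsum_eq, ENNReal.ofReal_tsum_of_nonneg (fun l => by positivity) sum_ss.summable]
    refine ENNReal.tsum_le_tsum fun l => ?_
    rw [vol_ball _ _ (by have := ss_pos l; positivity)]
  rw [h0, zero_add, vol_Qs] at h1
  have h3 := h1.trans h2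
  rw [ENNReal.ofReal_le_ofReal_iff (by norm_num)] at h3
  norm_num at h3

theorem KK_sub (f : ℕ → ℝ × ℝ) (k : ℕ) : KK f ⊆ AA k f := by
  intro p hp
  refine ⟨hp.1, fun l _ => ?_⟩
  by_contra h
  exact hp.2 (mem_iUnion.2 ⟨l, mem_ball.2 (not_le.1 h)⟩)

theorem AA_nonempty (f : ℕ → ℝ × ℝ) (k : ℕ) : (AA k f).Nonempty := by
  refine Set.Nonempty.mono (KK_sub f k) ?_
  rw [nonempty_iff_ne_empty]
  intro h
  have := vol_KK f
  rw [h, measure_empty] at this
  exact lt_irrefl _ this

theorem AA_compact (f : ℕ → ℝ × ℝ) (k : ℕ) : IsCompact (AA k f) := by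
  refine (isCompact_Icc.prod isCompact_Icc).inter_right ?_
  simp only [ofPred_forall]
  exact isClosed_iInter fun l => isClosed_iInter fun _ =>
    isClosed_le continuous_const (continuous_id.dist continuous_const)

theorem exists_pick (k : ℕ) (f : ℕ → ℝ × ℝ) (q : ℝ × ℝ) :
    ∃ p ∈ AA k f, ∀ y ∈ AA k f, dist p q ≤ dist y q := by
  obtain ⟨p, hp, h⟩ := (AA_compact f k).exists_isMinOn (AA_nonempty f k)
    (f := fun y => dist y q) (continuous_id.dist continuous_const).continuousOn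
  exact ⟨p, hp, fun y hy => h hy⟩

/-- the targets: every element of a dense sequence occurs infinitely often -/
def qq (k : ℕ) : ℝ × ℝ := TopologicalSpace.denseSeq (ℝ × ℝ) k.unpair.1

/-- the centres -/
def xs (k : ℕ) : ℝ × ℝ :=
  (exists_pick k (fun l => if _ : l < k then xs l else 0) (qq k)).choose
termination_by k

theorem AA_congr {k : ℕ} {f g : ℕ → ℝ × ℝ} (h : ∀ l < k, f l = g l) : AA k f = AA k g := by
  ext p
  simp only [AA, mem_inter_iff, mem_ofPred_eq]
  refine and_congr_right fun _ => forall_congr' fun l => forall_congr' fun hl => ?_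
  rw [h l hl]

theorem xs_spec (k : ℕ) : xs k ∈ AA k xs ∧ ∀ y ∈ AA k xs, dist (xs k) (qq k) ≤ dist y (qq k) := by
  have h := (exists_pick k (fun l => if _ : l < k then xs l else 0) (qq k)).choose_spec
  have h2 : AA k (fun l => if _ : l < k then xs l else 0) = AA k xs :=
    AA_congr fun l hl => by simp [hl]
  rw [← xs, h2] at h
  exact h

/-- **Module SEL.** -/
theorem sel : SelStmt := by
  refine ⟨xs, ss, KK xs, ?_, ss_pos, fun k => le_rfl, ?_, ?_, vol_KK xs, ?_⟩
  · intro k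
    have h := (xs_spec k).1.1
    simp only [Qs, mem_prod, mem_Icc] at h
    exact ⟨abs_le.2 h.1, abs_le.2 h.2⟩
  · have key : ∀ k l, l < k → 2 * (ss k + ss l) ≤
        √(((xs k).1 - (xs l).1) ^ 2 + ((xs k).2 - (xs l).2) ^ 2) := by
      intro k l h
      have h1 := (xs_spec k).1.2 l h
      have h2 := ss_anti h.le
      have h3 : dist (xs k) (xs l) ≤ √(((xs k).1 - (xs l).1) ^ 2 + ((xs k).2 - (xs l).2) ^ 2) := by
        rw [Prod.dist_eq, Real.dist_eq, Real.dist_eq]
        refine max_le ?_ ?_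
        · rw [← Real.sqrt_sq_eq_abs]
          exact Real.sqrt_le_sqrt (by nlinarith [sq_nonneg ((xs k).2 - (xs l).2)])
        · rw [← Real.sqrt_sq_eq_abs]
          exact Real.sqrt_le_sqrt (by nlinarith [sq_nonneg ((xs k).1 - (xs l).1)])
      linarith
    intro k l hkl
    rcases lt_or_gt_of_ne hkl with h | h
    · have h1 := key l k h
      have e : ((xs l).1 - (xs k).1) ^ 2 + ((xs l).2 - (xs k).2) ^ 2 =
          ((xs k).1 - (xs l).1) ^ 2 + ((xs k).2 - (xs l).2) ^ 2 := by ring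
      rw [e] at h1
      linarith
    · exact key k l h
  · intro y hy k h
    apply hy.2
    rw [mem_iUnion]
    refine ⟨k, ?_⟩
    rw [h]
    exact mem_ball_self (by have := ss_pos k; positivity)
  · intro y hy ε hε N
    obtain ⟨p, hp1, ⟨n, rfl⟩⟩ := (TopologicalSpace.denseRange_denseSeq (ℝ × ℝ)).exists_mem_open
      (isOpen_ball (x := y) (ε := ε / 4)) ⟨y, mem_ball_self (by positivity)⟩ |>.elim
      (fun n hn => (⟨_, hn, n, rfl⟩ : ∃ p ∈ ball y (ε / 4),
        ∃ n, TopologicalSpace.denseSeq (ℝ × ℝ) n = p))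
    refine ⟨Nat.pair n N, Nat.right_le_pair n N, ?_⟩
    have h1 := (xs_spec (Nat.pair n N)).2 y (KK_sub _ _ hy)
    have h2 : qq (Nat.pair n N) = TopologicalSpace.denseSeq (ℝ × ℝ) n := by
      simp [qq]
    rw [h2] at h1
    rw [mem_ball] at hp1
    have h3 : dist (xs (Nat.pair n N)) y < ε / 2 := by
      have := dist_triangle (xs (Nat.pair n N)) (TopologicalSpace.denseSeq (ℝ × ℝ) n) y
      have h4 := dist_comm y (TopologicalSpace.denseSeq (ℝ × ℝ) n)
      linarith
    rw [Prod.dist_eq, Real.dist_eq, Real.dist_eq, max_lt_iff] at h3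
    have h5 : √(((xs (Nat.pair n N)).1 - y.1) ^ 2 + ((xs (Nat.pair n N)).2 - y.2) ^ 2) < √(ε ^ 2) := by
      apply Real.sqrt_lt_sqrt (by positivity)
      have a1 := sq_lt_sq' (by linarith [neg_abs_le ((xs (Nat.pair n N)).1 - y.1), h3.1])
        (lt_of_le_of_lt (le_abs_self _) h3.1)
      have a2 := sq_lt_sq' (by linarith [neg_abs_le ((xs (Nat.pair n N)).2 - y.2), h3.2])
        (lt_of_le_of_lt (le_abs_self _) h3.2)
      nlinarith
    rwa [Real.sqrt_sq hε.le] at h5

end Pool.Agent.RLim.H10
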