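import Pool.Agent.Helper1_RL.Stmts
import Pool.Agent.Helper5_RF.Diffeo
import Pool.Agent.Helper36_RF.Chr

/-!
# Module U2E (MP_62da59_gt, squad RLA): homogeneity of the core metric under `U(2)`
-/

noncomputable section

open scoped ContDiff Topology ENNReal RealInnerProductSpace
set_option maxSynthPendingDepth 3
open Set Metric

namespace Pool.Agent.RLim.H10

open Pool.Agent.RF Pool.Agent.RLim

/-- the unitary matrix with first column `X / R` -/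
def lin (X : E4) (R : ℝ) : E4 →ₗ[ℝ] E4 where
  toFun V := WithLp.toLp 2 ![R⁻¹ * (X 0 * V 0 - X 1 * V 1 - X 2 * V 2 - X 3 * V 3),
    R⁻¹ * (X 0 * V 1 + X 1 * V 0 - X 2 * V 3 + X 3 * V 2),
    R⁻¹ * (X 2 * V 0 - X 3 * V 1 + X 0 * V 2 + X 1 * V 3),
    R⁻¹ * (X 2 * V 1 + X 3 * V 0 + X 0 * V 3 - X 1 * V 2)]
  map_add' V W := by
    ext i
    fin_cases i <;> simp <;> ring
  map_smul' c V := by
    ext i
    fin_cases i <;> simp <;> ring

theorem lin_apply (X : E4) (R : ℝ) (V : E4) : lin X R V =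
    WithLp.toLp 2 ![R⁻¹ * (X 0 * V 0 - X 1 * V 1 - X 2 * V 2 - X 3 * V 3),
    R⁻¹ * (X 0 * V 1 + X 1 * V 0 - X 2 * V 3 + X 3 * V 2),
    R⁻¹ * (X 2 * V 0 - X 3 * V 1 + X 0 * V 2 + X 1 * V 3),
    R⁻¹ * (X 2 * V 1 + X 3 * V 0 + X 0 * V 3 - X 1 * V 2)] := rfl

theorem normsq (X : E4) : ‖X‖ ^ 2 = X 0 ^ 2 + X 1 ^ 2 + X 2 ^ 2 + X 3 ^ 2 := by
  rw [EuclideanSpace.norm_sq_eq]
  simp [Fin.sum_univ_four, sq_abs]

theorem lin_norm {X : E4} (hX : X ≠ 0) (V : E4) : ‖lin X ‖X‖ V‖ = ‖V‖ := by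
  have hR : ‖X‖ ≠ 0 := norm_ne_zero_iff.2 hX
  have h1 := normsq X
  rw [← sq_eq_sq₀ (norm_nonneg _) (norm_nonneg _), normsq, normsq V, lin_apply]
  have h2 : (‖X‖⁻¹) ^ 2 * (X 0 ^ 2 + X 1 ^ 2 + X 2 ^ 2 + X 3 ^ 2) = 1 := by
    rw [← h1]
    field_simp
  simp
  linear_combination (V 0 ^ 2 + V 1 ^ 2 + V 2 ^ 2 + V 3 ^ 2) * h2

/-- the isometry -/
def iso {X : E4} (hX : X ≠ 0) : E4 ≃ₗᵢ[ℝ] E4 :=
  (⟨lin X ‖X‖, lin_norm hX⟩ : E4 →ₗᵢ[ℝ] E4).toLinearIsometryEquiv rfl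

theorem iso_apply {X : E4} (hX : X ≠ 0) (V : E4) : iso hX V = lin X ‖X‖ V := rfl

theorem iso_Xb {X : E4} (hX : X ≠ 0) : iso hX (Xb ‖X‖) = X := by
  have hR : ‖X‖ ≠ 0 := norm_ne_zero_iff.2 hX
  rw [iso_apply, lin_apply]
  ext i
  fin_cases i <;> simp [Xb] <;> field_simp

theorem iso_JJ {X : E4} (hX : X ≠ 0) (V : E4) : JJ (iso hX V) = iso hX (JJ V) := by
  rw [iso_apply, lin_apply, iso_apply, lin_apply]
  ext i
  fin_cases i <;> simp [JJ, -mul_eq_mul_left_iff] <;> ring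

theorem u2_iso (F B : ℝ → ℝ) {X : E4} (hX : X ≠ 0) (Y V W : E4) :
    u2 F B (iso hX Y) (iso hX V) (iso hX W) = u2 F B Y V W := by
  unfold u2
  rw [gen_apply, gen_apply, iso_JJ, LinearIsometryEquiv.norm_map]
  simp only [LinearIsometryEquiv.inner_map_map]
  ring

theorem iso_fderiv {X : E4} (hX : X ≠ 0) (Y : E4) : fderiv ℝ (iso hX) Y =
    ((iso hX).toContinuousLinearEquiv : E4 →L[ℝ] E4) :=
  (iso hX).toContinuousLinearEquiv.toContinuousLinearMap.fderiv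

theorem u2_pull (F B : ℝ → ℝ) {X : E4} (hX : X ≠ 0) : pullb (u2 F B) (iso hX) = u2 F B := by
  funext Y
  ext V W
  rw [pullb_apply, iso_fderiv]
  exact u2_iso F B hX Y V W

/-- **Module U2E.** -/
theorem u2e (hM : U2MetricStmt) : U2EquivStmt := by
  intro F B hF X hX
  refine ⟨iso hX, iso_Xb hX, u2_iso F B hX, ?_⟩
  intro V W
  have hD : DiffeoStatement := H5.diffeo chrStatement (H5.nat chrStatement)
  have hXb : Xb ‖X‖ ∈ Om (Fin 4) := by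
    intro h
    apply hX
    rw [← iso_Xb hX, h, map_zero]
  have h := (hD (Fin 4) (Fin 4) (u2 F B) (iso hX) (Om (Fin 4)) (Om (Fin 4)) (hM F B hF)
    isOpen_ne (iso hX).contDiff.contDiffOn (fun Y hY => by
      intro h0
      exact hY ((map_eq_zero_iff (iso hX) (iso hX).injective).1 h0)) (fun Y _ => by
      rw [iso_fderiv]
      exact ⟨(iso hX).toContinuousLinearEquiv, rfl⟩)).2.2 (Xb ‖X‖) hXb V W
  rw [u2_pull, iso_Xb, iso_fderiv] at h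
  exact h.symm

end Pool.Agent.RLim.H10
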